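import Pool.Agent.Helper64.FL.StG

set_option autoImplicit false

/-!
fl_mods CUT: the first vertex with a property on a path.
-/

namespace Pool.Agent.Helper81.FL

open Pool.Agent.Helper64.FL

variable {V : Type}

theorem cut_cons (G : SimpleGraph V) (a z w : V) (l : List V) (h1 : G.Adj a z) (h2 : a ≠ w)
    (h3 : ¬ G.Adj a w) (h4 : z ≠ w) (h5 : Pth G z l w) (h6 : ∀ u ∈ l, a ≠ u ∧ ¬ G.Adj a u) :
    Pth G a (z :: l) w := by
  right
  refine ⟨h2, ?_⟩
  rcases h5 with h5 | h5
  · exact absurd h5.1 h4
  · refine ⟨?_, ?_, ?_, h5.2⟩
    · intro x hx
      rw [List.cons_append, List.mem_cons, List.mem_append, List.mem_singleton] at hx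
      rcases hx with rfl | hx | rfl
      · exact h1.ne
      · exact (h6 x hx).1
      · exact h2
    · intro b hb
      rw [List.cons_append, List.head?_cons, Option.mem_def, Option.some_inj] at hb
      rw [← hb]
      exact h1
    · intro x hx
      rw [List.cons_append, List.tail_cons, List.mem_append, List.mem_singleton] at hx
      rcases hx with hx | rfl
      · exact (h6 x hx).2
      · exact h3

theorem cut_nil (G : SimpleGraph V) (z : V) (l : List V) (h : Pth G z l z) : l = [] := by
  rcases h with h | h
  · exact h.2
  · exact absurd rfl h.1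

theorem st_CUT (hPTB : ST_PTB) : ST_CUT := by
  intro V G K φ t w L
  obtain ⟨-, -, P3, -, P5, P6⟩ := hPTB V G
  induction L generalizing t with
  | nil =>
    intro hP hφ
    by_cases ht : φ t
    · refine ⟨[], t, [], ⟨⟨hP.lK, hP.lK, hP.rK, by simp, by simp, P6 t, hP.pth, ?_, ?_, ?_, ?_⟩,
        ht, ?_, ?_⟩, ?_, ?_, ?_, ?_⟩
      · intro h; exact absurd rfl h
      · intro h; exact absurd rfl h
      · intro _ u hu; simp at hu
      · intro u hu; simp at hu
      · intro h; exact absurd rfl h
      · intro u hu; simp at hu
      · intro u hu; simp at hu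
      · intro u hu; simp at hu
      · left; rfl
      · intro u hu; simp at hu
    · have hw : φ w := by
        rcases hφ with h | h | ⟨u, hu, -⟩
        · exact absurd h ht
        · exact h
        · simp at hu
      refine ⟨[], w, [], ⟨⟨hP.lK, hP.rK, hP.rK, by simp, by simp, hP.pth, P6 w, ?_, ?_, ?_, ?_⟩,
        hw, ?_, ?_⟩, ?_, ?_, ?_, ?_⟩
      · intro _ h; exact absurd rfl h
      · intro _ u hu; simp at hu
      · intro _ u hu; simp at hu
      · intro u hu; simp at hu
      · intro _; exact ht
      · intro u hu; simp at hu
      · intro u hu; simp at hu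
      · intro u hu; simp at hu
      · right; left; rfl
      · intro u hu; simp at hu
  | cons z L ih =>
    intro hP hφ
    by_cases ht : φ t
    · refine ⟨[], t, z :: L, ⟨⟨hP.lK, hP.lK, hP.rK, by simp, hP.LK, P6 t, hP.pth, ?_, ?_, ?_, ?_⟩,
        ht, ?_, ?_⟩, ?_, ?_, ?_, ?_⟩
      · intro h; exact absurd rfl h
      · intro h; exact absurd rfl h
      · intro _ u hu; simp at hu
      · intro u hu; simp at hu
      · intro h; exact absurd rfl h
      · intro u hu; simp at hu
      · intro u hu; simp at hu
      · intro u hu; exact hu
      · left; rfl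
      · intro u hu; right; right; exact hu
    · obtain ⟨h1, h2, h3, h4, h5, h6⟩ := P3 _ _ _ _ hP.pth
      have hzK : z ∈ K := hP.LK z (List.mem_cons_self ..)
      have hφ' : φ z ∨ φ w ∨ ∃ u ∈ L, φ u := by
        rcases hφ with h | h | ⟨u, hu, h⟩
        · exact absurd h ht
        · exact Or.inr (Or.inl h)
        · rcases List.mem_cons.1 hu with rfl | hu
          · exact Or.inl h
          · exact Or.inr (Or.inr ⟨u, hu, h⟩)
      obtain ⟨l1, f, l2, hO, hl1, hl2, hf, hall⟩ := ih z
        ⟨hzK, hP.rK, fun u hu => hP.LK u (List.mem_cons_of_mem _ hu), h5⟩ hφ'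
      by_cases hzf : z = f
      · subst hzf
        have hl : l1 = [] := cut_nil G z l1 hO.p1
        refine ⟨[], z, l2, ⟨⟨hP.lK, hzK, hP.rK, by simp, hO.l2K, P5 _ _ h1, hO.p2, ?_, ?_, ?_, ?_⟩,
          hO.ff, ?_, ?_⟩, ?_, ?_, ?_, ?_⟩
        · intro _ _; exact ⟨h2, h3⟩
        · intro _ u hu; exact h6 u (hl2 u hu)
        · intro _ u hu; simp at hu
        · intro u hu; simp at hu
        · intro _; exact ht
        · intro u hu; simp at hu
        · intro u hu; simp at hu
        · intro u hu; exact List.mem_cons_of_mem _ (hl2 u hu)
        · right; right; exact List.mem_cons_self ..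
        · intro u hu
          rcases List.mem_cons.1 hu with rfl | hu
          · right; left; rfl
          · rcases hall u hu with h | h | h
            · rw [hl] at h; simp at h
            · right; left; exact h
            · right; right; exact h
      · have hf' : f = w ∨ f ∈ L := by
          rcases hf with h | h | h
          · exact absurd h.symm hzf
          · exact Or.inl h
          · exact Or.inr h
        have htf : t ≠ f ∧ ¬ G.Adj t f := by
          rcases hf' with rfl | h
          · exact ⟨h2, h3⟩
          · exact h6 f h
        refine ⟨z :: l1, f, l2, ⟨⟨hP.lK, hO.fK, hP.rK, ?_, hO.l2K,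
          cut_cons G t z f l1 h1 htf.1 htf.2 hzf hO.p1 (fun u hu => h6 u (hl1 u hu)), hO.p2,
          ?_, ?_, ?_, ?_⟩, hO.ff, ?_, ?_⟩, ?_, ?_, ?_, ?_⟩
        · intro u hu
          rcases List.mem_cons.1 hu with rfl | hu
          · exact hzK
          · exact hO.l1K u hu
        · intro _ _; exact ⟨h2, h3⟩
        · intro _ u hu; exact h6 u (hl2 u hu)
        · intro hfw u hu
          rcases List.mem_cons.1 hu with rfl | hu
          · exact hO.aw hzf hfw
          · exact hO.l1w hfw u hu
        · intro u hu v hv
          rcases List.mem_cons.1 hu with rfl | hu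
          · exact hO.al2 hzf v hv
          · exact hO.l12 u hu v hv
        · intro _; exact ht
        · intro u hu
          rcases List.mem_cons.1 hu with rfl | hu
          · exact hO.ft hzf
          · exact hO.fl u hu
        · intro u hu
          rcases List.mem_cons.1 hu with rfl | hu
          · exact List.mem_cons_self ..
          · exact List.mem_cons_of_mem _ (hl1 u hu)
        · intro u hu; exact List.mem_cons_of_mem _ (hl2 u hu)
        · rcases hf' with h | h
          · right; left; exact h
          · right; right; exact List.mem_cons_of_mem _ h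
        · intro u hu
          rcases List.mem_cons.1 hu with rfl | hu
          · left; exact List.mem_cons_self ..
          · rcases hall u hu with h | h | h
            · left; exact List.mem_cons_of_mem _ h
            · right; left; exact h
            · right; right; exact h

end Pool.Agent.Helper81.FL
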