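import Pool.Agent.Helper64.FL.StE

/-! Full list for MP_866009_co: ladder leaf of the symbolic engine. -/

set_option autoImplicit false

namespace Pool.Agent.Helper64.FL

open Pool.Agent.Helper64.CT Pool.Agent.Helper64.DT
open Pool.Agent.Helper64.HG (Ovl Model Circ IC HellyCircle ChordModel)

theorem lde_okp (s : Sk) (i j : ℕ) : okp s i j = true ↔ i < s.n ∧ j < s.n ∧ i ≠ j := by
  unfold okp
  rw [Bool.and_eq_true, Bool.and_eq_true]
  constructor
  · rintro ⟨⟨h1, h2⟩, h3⟩
    refine ⟨Nat.blt_eq.mp h1, Nat.blt_eq.mp h2, ?_⟩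
    intro h
    subst h
    have h4 : Nat.beq i i = true := Nat.beq_refl i
    rw [h4] at h3
    exact absurd h3 (by decide)
  · rintro ⟨h1, h2, h3⟩
    refine ⟨⟨Nat.blt_eq.mpr h1, Nat.blt_eq.mpr h2⟩, ?_⟩
    have h4 : Nat.beq i j = false := by
      cases hb : Nat.beq i j with
      | false => rfl
      | true => exact absurd (Nat.eq_of_beq_eq_true hb) h3
    rw [h4]
    rfl

theorem lde_nall (s : Sk) (i : ℕ) : ∀ l : List ℕ, nall s i l = true →
    ∀ j ∈ l, db s i j = true ∧ i < s.n ∧ j < s.n ∧ i ≠ j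
  | [], _, j, hj => by cases hj
  | a :: l, h, j, hj => by
    have h' : (db s i a && okp s i a && nall s i l) = true := h
    rw [Bool.and_eq_true, Bool.and_eq_true] at h'
    rcases List.mem_cons.mp hj with hja | hjl
    · subst hja
      exact ⟨h'.1.1, (lde_okp s i j).mp h'.1.2⟩
    · exact lde_nall s i l h'.2 j hjl

theorem lde_chn1 (s : Sk) (m i j : ℕ) (l : List ℕ) (g : Seg) (t : List Seg) :
    chn s m i (j :: l) (g :: t) = (nall s i l && (bif eb s i j then okp s i j &&
      chn s m j l (g :: t) else Nat.beq g.u i && Nat.beq g.w j && okp s i j &&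
          sub m (sb (sb g.cl i) j) && chn s m j l t)) := rfl

theorem lde_chn0 (s : Sk) (m i j : ℕ) (l : List ℕ) :
    chn s m i (j :: l) [] = (nall s i l && (bif eb s i j then okp s i j &&
      chn s m j l [] else false)) := rfl

theorem lde_nodup (s : Sk) (m : ℕ) : ∀ (l : List ℕ) (i : ℕ) (sg : List Seg),
    chn s m i l sg = true → (i :: l).Nodup
  | [], i, _, _ => List.nodup_singleton i
  | j :: l, i, [], h => by
    rw [lde_chn0, Bool.and_eq_true] at h
    obtain ⟨h1, h2⟩ := h
    cases he : eb s i j with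
    | true =>
      rw [he] at h2
      have h3 : (okp s i j && chn s m j l []) = true := h2
      rw [Bool.and_eq_true] at h3
      have hij := ((lde_okp s i j).mp h3.1).2.2
      refine List.nodup_cons.mpr ⟨?_, lde_nodup s m l j [] h3.2⟩
      intro hmem
      rcases List.mem_cons.mp hmem with h4 | h4
      · exact hij h4
      · exact (lde_nall s i l h1 i h4).2.2.2 rfl
    | false =>
      rw [he] at h2
      have h3 : false = true := h2
      exact absurd h3 Bool.false_ne_true
  | j :: l, i, g :: t, h => by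
    rw [lde_chn1, Bool.and_eq_true] at h
    obtain ⟨h1, h2⟩ := h
    have key : i ≠ j ∧ (j :: l).Nodup := by
      cases he : eb s i j with
      | true =>
        rw [he] at h2
        have h3 : (okp s i j && chn s m j l (g :: t)) = true := h2
        rw [Bool.and_eq_true] at h3
        exact ⟨((lde_okp s i j).mp h3.1).2.2, lde_nodup s m l j (g :: t) h3.2⟩
      | false =>
        rw [he] at h2
        have h3 : (Nat.beq g.u i && Nat.beq g.w j && okp s i j &&
          sub m (sb (sb g.cl i) j) && chn s m j l t) = true := h2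
        rw [Bool.and_eq_true, Bool.and_eq_true, Bool.and_eq_true] at h3
        exact ⟨((lde_okp s i j).mp h3.1.1.2).2.2, lde_nodup s m l j t h3.2⟩
    refine List.nodup_cons.mpr ⟨?_, key.2⟩
    intro hmem
    rcases List.mem_cons.mp hmem with h4 | h4
    · exact key.1 h4
    · exact (lde_nall s i l h1 i h4).2.2.2 rfl

/-- the list of the rungs -/
def ldeR (s : Sk) (h k : ℕ) (l : List ℕ) : List ℕ := l.filter (fun i => eb s h i && eb s k i)

theorem lde_rung (s : Sk) (h k : ℕ) : ∀ l : List ℕ, rung s h k l = (ldeR s h k l).length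
  | [] => rfl
  | i :: l => by
    have ih := lde_rung s h k l
    have h1 : rung s h k (i :: l) = bif eb s h i && eb s k i then Nat.succ (rung s h k l) else
      rung s h k l := rfl
    rw [h1]
    unfold ldeR
    cases hb : (eb s h i && eb s k i) with
    | true =>
      have h2 : List.filter (fun i => eb s h i && eb s k i) (i :: l) =
        i :: List.filter (fun i => eb s h i && eb s k i) l := List.filter_cons_of_pos hb
      rw [h2]
      show Nat.succ (rung s h k l) = _
      rw [ih]
      rfl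
    | false =>
      have h2 : List.filter (fun i => eb s h i && eb s k i) (i :: l) =
        List.filter (fun i => eb s h i && eb s k i) l :=
        List.filter_cons_of_neg (by
          show ¬ (eb s h i && eb s k i) = true
          rw [hb]
          exact Bool.false_ne_true)
      rw [h2]
      show rung s h k l = _
      rw [ih]
      rfl

theorem st_LDE (hTBS : ST_TBS) (_hPXI : ST_PXI) (hCHN : ST_CHN) (_hIPL : ST_IPL) : ST_LDE := by
  intro V G s f L c h k i l hM hC hl
  obtain ⟨_, _, _, _, _, _, _, _, hpred, hmsk⟩ := hTBS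
  have hl' : (Nat.beq (msk (c :: h :: k :: i :: l)) (Nat.pred (Nat.shiftLeft 1 s.n)) &&
    !(tb (msk (i :: l)) h) && !(tb (msk (i :: l)) k) &&
    chn s (msk (c :: i :: l)) i l s.sg && okp s c h && okp s c k && eb s c h && eb s c k &&
    okp s h k && db s h k && nall s c (i :: l) && Nat.ble 3 (rung s h k l) && pur s h k i &&
    (match l.reverse with
     | [] => false
     | j :: _ => pur s h k j)) = true := hl
  rw [Bool.and_eq_true, Bool.and_eq_true, Bool.and_eq_true, Bool.and_eq_true, Bool.and_eq_true,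
    Bool.and_eq_true, Bool.and_eq_true, Bool.and_eq_true, Bool.and_eq_true, Bool.and_eq_true,
    Bool.and_eq_true, Bool.and_eq_true, Bool.and_eq_true] at hl'
  obtain ⟨⟨⟨⟨⟨⟨⟨⟨⟨⟨⟨⟨⟨hmask, hh⟩, hk⟩, hchn⟩, hch⟩, hck⟩, hech⟩, heck⟩, hhk⟩, hdhk⟩, hnc⟩, hru⟩,
    hpi⟩, hlast⟩ := hl'
  have n32 := hM.n32
  have hcov : ∀ j, j < s.n ↔ j ∈ c :: h :: k :: i :: l := by
    intro j
    have h1 : msk (c :: h :: k :: i :: l) = Nat.pred (Nat.shiftLeft 1 s.n) :=
      Nat.eq_of_beq_eq_true hmask
    have h2 := hmsk (c :: h :: k :: i :: l) j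
    rw [h1, hpred] at h2
    exact decide_eq_decide.mp h2
  have hnotin : ∀ x, (!(tb (msk (i :: l)) x)) = true → x ∉ i :: l := by
    intro x hx hmem
    have h2 := hmsk (i :: l) x
    rw [decide_eq_true hmem] at h2
    rw [h2] at hx
    exact absurd hx (by decide)
  have hh' := hnotin h hh
  have hk' := hnotin k hk
  have lt32 : ∀ j, j < s.n → j < 32 := fun j hj => lt_of_lt_of_le hj n32
  have hadj : ∀ a b, a < s.n → b < s.n → a ≠ b → eb s a b = true → G.Adj (f a) (f b) :=
    fun a b ha hb hab he => (hM.adj a b (lt32 a ha) (lt32 b hb) he).2.2 hab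
  have hnad : ∀ a b, a < s.n → b < s.n → a ≠ b → db s a b = true → ¬ G.Adj (f a) (f b) :=
    fun a b ha hb hab he => (hM.nad a b (lt32 a ha) (lt32 b hb) he).2.2 hab
  have hi : i < s.n := (hcov i).mpr (by simp)
  obtain ⟨hcn, hhn, hchne⟩ := (lde_okp s c h).mp hch
  obtain ⟨_, hkn, hckne⟩ := (lde_okp s c k).mp hck
  obtain ⟨_, _, hhkne⟩ := (lde_okp s h k).mp hhk
  have hmem_n : ∀ j ∈ i :: l, j < s.n := by
    intro j hj
    refine (hcov j).mpr ?_
    exact List.mem_cons_of_mem _ (List.mem_cons_of_mem _ (List.mem_cons_of_mem _ hj))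
  have hmemc : ∀ j ∈ i :: l, db s c j = true ∧ c ≠ j := by
    intro j hj
    have := lde_nall s c (i :: l) hnc j hj
    exact ⟨this.1, this.2.2.2⟩
  have hcmask : ∀ j, tb (msk (c :: i :: l)) j = true ↔ j ∈ c :: i :: l := by
    intro j
    rw [hmsk]
    exact decide_eq_true_iff
  obtain ⟨M, hM1, hM2, hM3, _, hM5⟩ := hCHN V G s f (msk (c :: i :: l)) i l L s.sg
    (fun a b ha hb he hab => (hM.adj a b ha hb he).2.2 hab)
    (fun a b ha hb he hab => (hM.nad a b ha hb he).2.2 hab) n32 hM.inj hM.map hi hM.pth hM.dis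
    (fun p hp j hj _ => (hM.cln p hp j hj).2.2.2) hM.sep
    (fun j hj => (hcmask j).mpr (List.mem_cons_of_mem _ hj)) hchn
  have hpur : ∀ j ∈ i :: l, pur s h k j = true → Pure G (f h) (f k) (f j) := by
    intro j hj hp
    have hjn := hmem_n j hj
    have hhj : h ≠ j := fun e => hh' (e ▸ hj)
    have hkj : k ≠ j := fun e => hk' (e ▸ hj)
    have hp' : ((eb s h j && db s k j) || (db s h j && eb s k j)) = true := hp
    rw [Bool.or_eq_true, Bool.and_eq_true, Bool.and_eq_true] at hp'
    rcases hp' with ⟨h1, h2⟩ | ⟨h1, h2⟩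
    · exact Or.inl ⟨hadj h j hhn hjn hhj h1, hnad k j hkn hjn hkj h2⟩
    · exact Or.inr ⟨hnad h j hhn hjn hhj h1, hadj k j hkn hjn hkj h2⟩
  refine ⟨f c, f h, f k, f i :: M, hM1, hadj c h hcn hhn hchne hech, hadj c k hcn hkn hckne heck,
    fun e => hhkne (hM.inj h k hhn hkn e), hnad h k hhn hkn hhkne hdhk, ?_, ?_, ?_, ?_, ?_⟩
  · intro x hx
    rcases (hM2 x).mp hx with ⟨j, hj, rfl⟩ | ⟨p, hp, hxp⟩
    · have hjn := hmem_n j hj
      refine ⟨fun e => (hmemc j hj).2 (hM.inj j c hjn hcn e).symm, fun e => ?_, fun e => ?_,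
        hnad c j hcn hjn (hmemc j hj).2 (hmemc j hj).1⟩
      · exact hh' ((hM.inj j h hjn hhn e) ▸ hj)
      · exact hk' ((hM.inj j k hjn hkn e) ▸ hj)
    · refine ⟨hM.dis p hp x hxp c hcn, hM.dis p hp x hxp h hhn, hM.dis p hp x hxp k hkn, ?_⟩
      obtain ⟨hu, hw, hcl⟩ := hM5 p hp
      have hc1 : tb p.1.cl c = true := hcl c ((hcmask c).mpr (by simp))
        (fun e => (hmemc _ hu).2 e) (fun e => (hmemc _ hw).2 e)
      exact (hM.cln p hp c hc1).2.2.2 x hxp
  · intro x hx
    have hx' : f i = x := by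
      have : (f i :: M).head? = some (f i) := rfl
      rw [this] at hx
      exact Option.mem_some_iff.mp hx
    rw [← hx']
    exact hpur i (by simp) hpi
  · intro x hx
    cases hrev : l.reverse with
    | nil =>
      rw [hrev] at hlast
      have h3 : false = true := hlast
      exact absurd h3 Bool.false_ne_true
    | cons j t =>
      rw [hrev] at hlast
      have hlj : l = t.reverse ++ [j] := by
        have := congrArg List.reverse hrev
        rw [List.reverse_reverse, List.reverse_cons] at this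
        exact this
      have hjl : j ∈ l := by rw [hlj]; simp
      have hgl : (i :: l).getLast? = some j := by
        rw [hlj, ← List.cons_append, List.getLast?_append]
        rfl
      have h3 := hM3 j hgl
      rw [h3] at hx
      have hx' : f j = x := Option.mem_some_iff.mp hx
      rw [← hx']
      exact hpur j (List.mem_cons_of_mem _ hjl) hlast
  · have hnd : (i :: l).Nodup := lde_nodup s _ l i s.sg hchn
    have hndl : l.Nodup := (List.nodup_cons.mp hnd).2
    have hndR : (ldeR s h k l).Nodup := hndl.filter _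
    have hlen : 3 ≤ (ldeR s h k l).length := by
      rw [← lde_rung]
      exact Nat.le_of_ble_eq_true hru
    have hR : ∀ j ∈ ldeR s h k l, j ∈ i :: l ∧ eb s h j = true ∧ eb s k j = true := by
      intro j hj
      unfold ldeR at hj
      rw [List.mem_filter, Bool.and_eq_true] at hj
      exact ⟨List.mem_cons_of_mem _ hj.1, hj.2.1, hj.2.2⟩
    match hRR : ldeR s h k l with
    | [] => rw [hRR] at hlen; simp at hlen
    | [_] => rw [hRR] at hlen; simp at hlen
    | [_, _] => rw [hRR] at hlen; simp at hlen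
    | r1 :: r2 :: r3 :: t =>
      rw [hRR] at hndR hR
      have e1 := hR r1 (by simp)
      have e2 := hR r2 (by simp)
      have e3 := hR r3 (by simp)
      have n12 : r1 ≠ r2 := by
        intro e
        have := (List.nodup_cons.mp hndR).1
        exact this (by rw [e]; simp)
      have n13 : r1 ≠ r3 := by
        intro e
        have := (List.nodup_cons.mp hndR).1
        exact this (by rw [e]; simp)
      have n23 : r2 ≠ r3 := by
        intro e
        have := (List.nodup_cons.mp (List.nodup_cons.mp hndR).2).1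
        exact this (by rw [e]; simp)
      have gen : ∀ r, (r ∈ i :: l ∧ eb s h r = true ∧ eb s k r = true) →
          f r ∈ f i :: M ∧ G.Adj (f h) (f r) ∧ G.Adj (f k) (f r) := by
        rintro r ⟨hr, hr1, hr2⟩
        have hrn := hmem_n r hr
        have hhr : h ≠ r := fun e => hh' (e ▸ hr)
        have hkr : k ≠ r := fun e => hk' (e ▸ hr)
        exact ⟨(hM2 (f r)).mpr (Or.inl ⟨r, hr, rfl⟩), hadj h r hhn hrn hhr hr1,
          hadj k r hkn hrn hkr hr2⟩
      refine ⟨f r1, (gen r1 e1).1, f r2, (gen r2 e2).1, f r3, (gen r3 e3).1,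
        fun e => n12 (hM.inj r1 r2 (hmem_n r1 e1.1) (hmem_n r2 e2.1) e),
        fun e => n13 (hM.inj r1 r3 (hmem_n r1 e1.1) (hmem_n r3 e3.1) e),
        fun e => n23 (hM.inj r2 r3 (hmem_n r2 e2.1) (hmem_n r3 e3.1) e),
        (gen r1 e1).2.1, (gen r1 e1).2.2, (gen r2 e2).2.1, (gen r2 e2).2.2,
        (gen r3 e3).2.1, (gen r3 e3).2.2⟩
  · intro x
    rcases hC x with ⟨j, hj, rfl⟩ | ⟨p, hp, hxp⟩
    · have hj2 := (hcov j).mp hj
      rcases List.mem_cons.mp hj2 with e | hj3
      · exact Or.inl (by rw [e])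
      rcases List.mem_cons.mp hj3 with e | hj4
      · exact Or.inr (Or.inl (by rw [e]))
      rcases List.mem_cons.mp hj4 with e | hj5
      · exact Or.inr (Or.inr (Or.inl (by rw [e])))
      · exact Or.inr (Or.inr (Or.inr ((hM2 (f j)).mpr (Or.inl ⟨j, hj5, rfl⟩))))
    · exact Or.inr (Or.inr (Or.inr ((hM2 x).mpr (Or.inr ⟨p, hp, hxp⟩))))

end Pool.Agent.Helper64.FL
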