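import Pool.Agent.Helper64.FL.StC

set_option autoImplicit false

/-!
MP_866009_co, module LWX: a shortest walk of conflicts violating the signs.
-/

namespace Pool.Agent.Helper64.FL

open Pool.Agent.Helper64.CT Pool.Agent.Helper64.DT
open Pool.Agent.Helper64.HG (Ovl Model Circ IC HellyCircle ChordModel)

variable {V : Type}

theorem lwx_sub {G : SimpleGraph V} {x a b : V} (h : Le G x a b) :
    ∀ m ∈ Att G x a, m ∈ Att G x b := by
  obtain ⟨⟨n, hna, hxn, u, hu, hnu⟩, hL2⟩ := h
  intro m hm
  refine ⟨hm.1, u, hu, ?_⟩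
  by_contra h
  exact hL2 u hu ⟨⟨n, hna, hnu.symm⟩, ⟨m, hm, fun h' => h h'.symm⟩⟩

theorem lwx_com {G : SimpleGraph V} {y a b : V} (h : Conf G y a b) :
    ∃ n, n ∈ Att G y a ∧ n ∈ Att G y b := by
  obtain ⟨_, ⟨u, hu, ⟨n, hn, hun⟩, _⟩, _⟩ := h
  exact ⟨n, ⟨hn.1, u, hu, hun.symm⟩, hn⟩

theorem lwx_le {G : SimpleGraph V} {y a b n : V} (h1 : ¬ Conf G y a b) (h2 : ¬ Comp G y a b)
    (ha : n ∈ Att G y a) (hb : n ∈ Att G y b) : Le G y a b ∨ Le G y b a := by
  by_cases h : ∃ u, Comp G y b u ∧ Mixed G u (Att G y a)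
  · right
    exact ⟨⟨n, hb, ha⟩, fun u hu hm => h1 ⟨h2, ⟨u, hu, hm⟩, h⟩⟩
  · left
    exact ⟨⟨n, ha, hb⟩, fun u hu hm => h ⟨u, hu, hm⟩⟩

/-- violating walk -/
structure LwxV (G : SimpleGraph V) (Q : Set V) (σ : V → Bool) (x y : V) (r : ℕ) (E : ℕ → V) :
    Prop where
  xQ : x ∈ Q
  yQ : y ∈ Q
  xy : x ≠ y
  r1 : 1 ≤ r
  ray0 : RayQ G Q x (E 0)
  rayr : RayQ G Q x (E r)
  cf : ∀ i, i < r → Conf G y (E i) (E (i + 1))
  vio : ¬ (σ (E 0) = σ (E r) ↔ Even r)

theorem lwx_par {G : SimpleGraph V} (hii : CII G) (hC : ST_CWX) {y : V} {r : ℕ} {E : ℕ → V}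
    (cf : ∀ i, i < r → Conf G y (E i) (E (i + 1))) {i j : ℕ} (hij : i ≤ j) (hj : j ≤ r) :
    (Comp G y (E i) (E j) → Even (j - i)) ∧ (Conf G y (E i) (E j) → ¬ Even (j - i)) := by
  obtain ⟨c, hc1, hc2⟩ := hii y
  have h := ((hC V G y).2 (j - i) (fun k => E (i + k)) (fun k hk => by
    have := cf (i + k) (by omega)
    exact this)).2 c ⟨hc1, hc2⟩
  have e : i + (j - i) = j := by omega
  simp only [Nat.add_zero, e] at h
  exact ⟨fun h' => h.1 (hc1 _ _ h'), fun h' h'' => hc2 _ _ h' (h.2 h'')⟩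

theorem lwx_nc {G : SimpleGraph V} {Q : Set V} {σ : V → Bool} (hii : CII G) (hC : ST_CWX)
    {x y : V} {r : ℕ} {E : ℕ → V} (h : LwxV G Q σ x y r E)
    (hm : ∀ x' y' r' E', LwxV G Q σ x' y' r' E' → r ≤ r') {i j : ℕ} (hij : i + 2 ≤ j)
    (hj : j ≤ r) : ¬ Conf G y (E i) (E j) := by
  intro hc
  have hp := (lwx_par hii hC h.cf (by omega : i ≤ j) hj).2 hc
  have hlen : Even (r - (j - i - 1)) ↔ Even r := by
    rw [Nat.even_sub (by omega)]
    have : Even (j - i - 1) := by
      rw [Nat.even_sub (by omega)]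
      simp [hp]
    simp [this]
  have key : LwxV G Q σ x y (r - (j - i - 1)) (fun k => if k ≤ i then E k else E (k + (j - i - 1))) := by
    refine ⟨h.xQ, h.yQ, h.xy, by omega, ?_, ?_, ?_, ?_⟩
    · simp only [Nat.zero_le, if_true]
      exact h.ray0
    · have h1 : ¬ (r - (j - i - 1) ≤ i) := by omega
      have h2 : r - (j - i - 1) + (j - i - 1) = r := by omega
      simp only [h1, if_false, h2]
      exact h.rayr
    · intro k hk
      by_cases h1 : k < i
      · have h2 : k ≤ i := h1.le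
        have h3 : k + 1 ≤ i := h1
        simp only [h2, h3, if_true]
        exact h.cf k (by omega)
      · by_cases h2 : k = i
        · subst h2
          have h3 : ¬ (k + 1 ≤ k) := by omega
          have h4 : k + 1 + (j - k - 1) = j := by omega
          simp only [le_refl, if_true, h3, if_false, h4]
          exact hc
        · have h3 : ¬ (k ≤ i) := by omega
          have h4 : ¬ (k + 1 ≤ i) := by omega
          simp only [h3, h4, if_false]
          have := h.cf (k + (j - i - 1)) (by omega)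
          have h5 : k + 1 + (j - i - 1) = k + (j - i - 1) + 1 := by omega
          rw [h5]
          exact this
    · have h1 : ¬ (r - (j - i - 1) ≤ i) := by omega
      have h2 : r - (j - i - 1) + (j - i - 1) = r := by omega
      simp only [Nat.zero_le, if_true, h1, if_false, h2, hlen]
      exact h.vio
  have h1 := hm _ _ _ _ key
  have h2 : ¬ (j = i + 2) := by
    intro h2
    subst h2
    apply hp
    rw [show i + 2 - i = 2 by omega]
    decide
  omega

theorem lwx_ncm {G : SimpleGraph V} {Q : Set V} {σ : V → Bool} (hii : CII G) (hsg : Sgn G Q σ)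
    (hC : ST_CWX) {x y : V} {r : ℕ} {E : ℕ → V} (h : LwxV G Q σ x y r E)
    (hm : ∀ x' y' r' E', LwxV G Q σ x' y' r' E' → r ≤ r') {i j : ℕ} (hij : i < j)
    (hj : j ≤ r) : ¬ Comp G y (E i) (E j) := by
  intro hc
  rcases Nat.lt_or_ge j r with h1 | h1
  · exact lwx_nc hii hC h hm (by omega : i + 2 ≤ j + 1) (by omega)
      ((h.cf j h1).congr hc.symm (Comp.refl (h.cf j h1).far.2))
  · have h2 : j = r := by omega
    subst h2
    rcases Nat.eq_zero_or_pos i with h3 | h3
    · subst h3
      apply h.vio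
      have h4 := (lwx_par hii hC h.cf (Nat.zero_le j) le_rfl).1 hc
      rw [Nat.sub_zero] at h4
      have h5 := (hsg x (E 0) (E j) y h.ray0 h.rayr h.yQ h.xy.symm).1 hc
      exact ⟨fun _ => h4, fun _ => h5⟩
    · have h4 := h.cf (i - 1) (by omega)
      have h5 : i - 1 + 1 = i := by omega
      rw [h5] at h4
      exact lwx_nc hii hC h hm (by omega : i - 1 + 2 ≤ j) le_rfl
        (h4.congr (Comp.refl h4.far.1) hc)

/-- facts on a shortest violation -/
theorem lwx_fac {G : SimpleGraph V} {Q : Set V} {σ : V → Bool} (hE : EnvC G Q σ) (hC : ST_CWX)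
    (hS : ST_SGF) {x y : V} {r : ℕ} {E : ℕ → V} (h : LwxV G Q σ x y r E)
    (hm : ∀ x' y' r' E', LwxV G Q σ x' y' r' E' → r ≤ r') :
    Odd r ∧ 3 ≤ r ∧ σ (E 0) = σ (E r) := by
  have h1 : r ≠ 1 := by
    intro h1
    subst h1
    apply h.vio
    have h2 := (hE.sg x (E 0) (E 1) y h.ray0 h.rayr h.yQ h.xy.symm).2 (h.cf 0 (by omega))
    simp [h2]
  have h2 := h.r1
  have h3 : σ (E 0) = σ (E r) := by
    by_contra h3
    exact lwx_nc hE.cii hC h hm (by omega : 0 + 2 ≤ r) le_rfl
      ((hS V G Q σ hE x (E 0) (E r) h.ray0 h.rayr).2 h3 y h.yQ h.xy.symm)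
  have h4 : ¬ Even r := fun h4 => h.vio ⟨fun _ => h4, fun _ => h3⟩
  rw [Nat.not_even_iff_odd] at h4
  refine ⟨h4, ?_, h3⟩
  by_contra h5
  have h6 : r = 2 := by omega
  subst h6
  exact absurd h4 (by decide)

theorem lwx_main {G : SimpleGraph V} {Q : Set V} {σ : V → Bool} (hE : EnvC G Q σ) (hC : ST_CWX)
    (hS : ST_SGF) (hR : ST_RAY) (hP : ST_PRP) {x y : V} {r : ℕ} {E : ℕ → V}
    (h : LwxV G Q σ x y r E) (hm : ∀ x' y' r' E', LwxV G Q σ x' y' r' E' → r ≤ r')
    (hl : Le G y (E 0) (E r)) : LWk G Q x y r E := by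
  obtain ⟨hodd, hr3, hsig⟩ := lwx_fac hE hC hS h hm
  have nc : ∀ i j, i + 2 ≤ j → j ≤ r → ¬ Conf G y (E i) (E j) :=
    fun i j hij hj => lwx_nc hE.cii hC h hm hij hj
  have ncm : ∀ i j, i < j → j ≤ r → ¬ Comp G y (E i) (E j) :=
    fun i j hij hj => lwx_ncm hE.cii hE.sg hC h hm hij hj
  obtain ⟨R1, R2, R3, R4, R5, R6⟩ := hR V G Q hE.red.1 hE.mx
  have le : ∀ i, i + 2 ≤ r → Le G y (E i) (E r) := by
    intro i
    induction i with
    | zero => intro _; exact hl
    | succ i ih =>
      intro hi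
      exact hP V G y (E i) (E r) (E (i + 1)) (ih (by omega)) (h.cf i (by omega))
        (nc (i + 1) r hi le_rfl) (ncm (i + 1) r (by omega) le_rfl)
  have x0 : x ∈ Att G y (E 0) := (R1 x (E 0) y h.ray0 h.yQ h.xy.symm).2
  have xr : x ∈ Att G y (E r) := (R1 x (E r) y h.rayr h.yQ h.xy.symm).2
  have xat : ∀ i, 1 ≤ i → i < r → x ∉ Att G y (E i) := by
    intro j hj1 hjr hx
    obtain ⟨_, v, hv, hcv⟩ := (R5 y h.yQ x h.xQ (E j)).1 hx
    have c1 : σ (E 0) = σ v ↔ Even j := by
      by_contra hcon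
      have key : LwxV G Q σ x y j (fun k => if k = j then v else E k) := by
        refine ⟨h.xQ, h.yQ, h.xy, hj1, ?_, ?_, ?_, ?_⟩
        · have h1 : ¬ (0 = j) := by omega
          simp only [h1, if_false]
          exact h.ray0
        · simp only [if_true]
          exact hv
        · intro k hk
          have h1 : ¬ (k = j) := by omega
          simp only [h1, if_false]
          by_cases h2 : k + 1 = j
          · simp only [h2, if_true]
            have h3 := h.cf k (by omega)
            rw [h2] at h3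
            exact h3.congr (Comp.refl h3.far.1) hcv
          · simp only [h2, if_false]
            exact h.cf k (by omega)
        · have h1 : ¬ (0 = j) := by omega
          simp only [h1, if_false, if_true]
          exact hcon
      have := hm _ _ _ _ key
      omega
    have c2 : σ v = σ (E r) ↔ Even (r - j) := by
      by_contra hcon
      have key : LwxV G Q σ x y (r - j) (fun k => if k = 0 then v else E (j + k)) := by
        refine ⟨h.xQ, h.yQ, h.xy, by omega, ?_, ?_, ?_, ?_⟩
        · simp only [if_true]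
          exact hv
        · have h1 : ¬ (r - j = 0) := by omega
          have h2 : j + (r - j) = r := by omega
          simp only [h1, if_false, h2]
          exact h.rayr
        · intro k hk
          have h1 : ¬ (k + 1 = 0) := by omega
          simp only [h1, if_false]
          by_cases h2 : k = 0
          · subst h2
            simp only [if_true]
            have h3 := h.cf j (by omega)
            exact h3.congr hcv (Comp.refl h3.far.2)
          · simp only [h2, if_false]
            exact h.cf (j + k) (by omega)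
        · have h1 : ¬ (r - j = 0) := by omega
          have h2 : j + (r - j) = r := by omega
          simp only [h1, if_false, if_true, h2]
          exact hcon
      have := hm _ _ _ _ key
      omega
    rw [hsig] at c1
    have c3 : Even j ↔ Even (r - j) := by
      rw [← c1, ← c2]
      exact ⟨fun h => h.symm, fun h => h.symm⟩
    rw [Nat.even_sub (by omega)] at c3
    have c4 : ¬ Even r := Nat.not_even_iff_odd.2 hodd
    simp only [c4, false_iff] at c3
    by_cases c5 : Even j
    · exact (c3.1 c5) c5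
    · exact c5 (c3.2 c5)
  have dsj : ∀ i j, i + 2 ≤ j → j < r → ∀ n, n ∈ Att G y (E i) → n ∉ Att G y (E j) := by
    intro i j hij hj n hni hnj
    rcases lwx_le (nc i j hij hj.le) (ncm i j (by omega) hj.le) hni hnj with hL | hL
    · have down : ∀ k, k ≤ i → Le G y (E (i - k)) (E j) := by
        intro k
        induction k with
        | zero => intro _; exact hL
        | succ k ih =>
          intro hk
          have h1 := h.cf (i - (k + 1)) (by omega)
          have h2 : i - (k + 1) + 1 = i - k := by omega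
          rw [h2] at h1
          exact hP V G y (E (i - k)) (E j) (E (i - (k + 1))) (ih (by omega)) h1.symm
            (nc (i - (k + 1)) j (by omega) hj.le) (ncm (i - (k + 1)) j (by omega) hj.le)
      have h1 := down i le_rfl
      rw [Nat.sub_self] at h1
      exact xat j (by omega) hj (lwx_sub h1 x x0)
    · have up : ∀ k, j + k ≤ r → Le G y (E (j + k)) (E i) := by
        intro k
        induction k with
        | zero => intro _; exact hL
        | succ k ih =>
          intro hk
          exact hP V G y (E (j + k)) (E i) (E (j + (k + 1))) (ih (by omega))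
            (h.cf (j + k) (by omega))
            (fun h' => nc i (j + (k + 1)) (by omega) (by omega) h'.symm)
            (fun h' => ncm i (j + (k + 1)) (by omega) (by omega) h'.symm)
      have h1 := up (r - j) (by omega)
      have h2 : j + (r - j) = r := by omega
      rw [h2] at h1
      rcases Nat.eq_zero_or_pos i with h3 | h3
      · subst h3
        obtain ⟨_, ⟨u, hu, ⟨n1, hn1, ha1⟩, n2, hn2, ha2⟩, _⟩ := h.cf 0 (by omega)
        have h4 := lwx_sub (le 1 (by omega))
        exact h1.2 u hu ⟨⟨n1, h4 n1 hn1, ha1⟩, n2, h4 n2 hn2, ha2⟩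
      · exact xat i h3 (by omega) (lwx_sub h1 x xr)
  have cpl : ∀ v, Comp G y (E r) v → (∀ i, i + 2 ≤ r → ∀ n ∈ Att G y (E i), G.Adj v n) ∨
      ∀ i, i + 2 ≤ r → ∀ n ∈ Att G y (E i), ¬ G.Adj v n := by
    intro v hv
    have hmix : ∀ i, i + 2 ≤ r → ∀ n ∈ Att G y (E i), ∀ m ∈ Att G y (E i),
        G.Adj v n → G.Adj v m := by
      intro i hi n hn m hm' h1
      by_contra h2
      exact (le i hi).2 v hv ⟨⟨n, hn, h1⟩, m, hm', h2⟩
    obtain ⟨n0, hn0, hn1⟩ := lwx_com (h.cf 0 (by omega))
    by_cases h0 : G.Adj v n0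
    · left
      intro i
      induction i with
      | zero => intro hi n hn; exact hmix 0 hi n0 hn0 n hn h0
      | succ i ih =>
        intro hi n hn
        obtain ⟨m, hm1, hm2⟩ := lwx_com (h.cf i (by omega))
        exact hmix (i + 1) hi m hm2 n hn (ih (by omega) m hm1)
    · right
      intro i
      induction i with
      | zero => intro hi n hn h1; exact h0 (hmix 0 hi n hn n0 hn0 h1)
      | succ i ih =>
        intro hi n hn h1
        obtain ⟨m, hm1, hm2⟩ := lwx_com (h.cf i (by omega))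
        exact ih (by omega) m hm1 (hmix (i + 1) hi n hn m hm2 h1)
  have far : E r ∈ Far G y := (R1 x (E r) y h.rayr h.yQ h.xy.symm).1
  refine ⟨h.xQ, h.yQ, h.xy, hodd, hr3, h.ray0, h.rayr, h.cf, nc, ncm, le, dsj, xat, ?_, cpl⟩
  intro i hi q hq hqx hqa
  have hx : G.Adj (E r) x := h.rayr.2.1.symm
  rcases cpl (E r) (Comp.refl far) with h1 | h1
  · have h2 := h1 i hi q hqa
    exact hqx (R2 q x (E r) ⟨hq, h2.symm, h.rayr.2.2⟩ h.rayr)
  · exact h1 0 (by omega) x x0 hx

theorem st_LWX (hC : ST_CWX) (hS : ST_SGF) (hR : ST_RAY) (hP : ST_PRP) : ST_LWX := by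
  intro V G Q σ hE hn
  have hex : ∃ r, ∃ x y E, LwxV G Q σ x y r E := by
    unfold Sgw at hn
    push_neg at hn
    obtain ⟨x, u, u', y, hu, hu', hy, hyx, hcl, c, hc, hne⟩ := hn
    have hfar := ((hR V G Q hE.red.1 hE.mx).1 x u y hu hy hyx).1
    rcases (hC V G y).1 u u' hfar hcl with h1 | ⟨r, E, hr, h0, h1, hcf⟩
    · exfalso
      have h2 := hc.1 u u' h1
      have h3 := (hE.sg x u u' y hu hu' hy hyx).1 h1
      rcases hne with ⟨_, h4⟩ | ⟨h4, _⟩
      · exact h4 h2
      · exact h4 h3
    · subst h0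
      subst h1
      have h2 := ((hC V G y).2 r E hcf).2 c hc
      refine ⟨r, x, y, E, ⟨hu.1, hy, hyx.symm, hr, hu, hu', hcf, ?_⟩⟩
      rw [← h2]
      intro h3
      rcases hne with ⟨h4, h5⟩ | ⟨h4, h5⟩
      · exact h5 (h3.1 h4)
      · exact h4 (h3.2 h5)
  classical
  obtain ⟨x, y, E, h⟩ := Nat.find_spec hex
  have hm : ∀ x' y' r' E', LwxV G Q σ x' y' r' E' → Nat.find hex ≤ r' :=
    fun x' y' r' E' h' => Nat.find_min' hex ⟨x', y', E', h'⟩
  generalize Nat.find hex = r at h hm
  obtain ⟨hodd, hr3, hsig⟩ := lwx_fac hE hC hS h hm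
  obtain ⟨R1, R2, R3, R4, R5, R6⟩ := hR V G Q hE.red.1 hE.mx
  have x0 : x ∈ Att G y (E 0) := (R1 x (E 0) y h.ray0 h.yQ h.xy.symm).2
  have xr : x ∈ Att G y (E r) := (R1 x (E r) y h.rayr h.yQ h.xy.symm).2
  rcases lwx_le (lwx_nc hE.cii hC h hm (by omega : 0 + 2 ≤ r) le_rfl)
    (lwx_ncm hE.cii hE.sg hC h hm (by omega : 0 < r) le_rfl) x0 xr with hL | hL
  · exact ⟨x, y, r, E, lwx_main hE hC hS hR hP h hm hL⟩
  · refine ⟨x, y, r, fun i => E (r - i), lwx_main hE hC hS hR hP (E := fun i => E (r - i))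
      ⟨h.xQ, h.yQ, h.xy, h.r1, ?_, ?_, ?_, ?_⟩ hm ?_⟩
    · simp only [Nat.sub_zero]
      exact h.rayr
    · simp only [Nat.sub_self]
      exact h.ray0
    · intro i hi
      have h1 := h.cf (r - (i + 1)) (by omega)
      have h2 : r - (i + 1) + 1 = r - i := by omega
      rw [h2] at h1
      exact h1.symm
    · simp only [Nat.sub_zero, Nat.sub_self]
      intro h1
      apply h.vio
      rw [← h1]
      exact ⟨fun h => h.symm, fun h => h.symm⟩
    · simp only [Nat.sub_zero, Nat.sub_self]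
      exact hL

end Pool.Agent.Helper64.FL
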